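import Mathlib
import Pool.Agent.Q277.SexticTwo

/-!
# Divisibility of a self-convolution of `C(6k,3k) C(3k,k)`

With `a_k = C(6k,3k) C(3k,k)` and `S_n = ∑_{j=0}^n a_j a_{n-j}` we prove that `S_n` is divisible by
`8 (2n-1) C(3n,n)` for every positive integer `n`.
-/

open Finset

namespace Pool.Agent.Results.MP_cbedb1_nt.Divisibility

/-- `a_k = C(6k,3k) C(3k,k)`. -/
def a (k : ℕ) : ℕ := (6 * k).choose (3 * k) * (3 * k).choose k

/-- `S_n = ∑_{j=0}^n a_j a_{n-j}`. -/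
def S (n : ℕ) : ℕ := ∑ j ∈ range (n + 1), a j * a (n - j)

/-- `8 (2n-1) C(3n,n)` divides `S_n` for every positive integer `n`. -/
theorem result (n : ℕ) (hn : 1 ≤ n) :
    8 * (2 * (n : ℤ) - 1) * ((3 * n).choose n : ℤ) ∣ (S n : ℤ) := by
  obtain ⟨A, h1, ⟨B, hB⟩, -⟩ := Q277.Sextic.main n hn
  refine ⟨B, ?_⟩
  have h1' := congrArg (Nat.cast : ℕ → ℤ) h1
  have hc : ((2 * n - 1 : ℕ) : ℤ) = 2 * n - 1 := by
    rw [Nat.cast_sub (by omega)]; push_cast; ring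
  have hS : S n = ∑ k ∈ range (n + 1), Q277.Sextic.t k * Q277.Sextic.t (n - k) := rfl
  rw [hS, h1, hB]
  push_cast
  rw [hc]
  ring

end Pool.Agent.Results.MP_cbedb1_nt.Divisibility
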